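import Mathlib
import Pool.Agent.Helper698.DDef

/-!
The analytic spread of a monomial ideal `I` of `K[X_1, …, X_r]`, in terms of its Newton polyhedron.
(`genExp I`, the exponents of the minimal monomial generators of `I`, is defined in
`Pool.Agent.Helper698.DDef`.)
-/

open MvPolynomial Pool.Agent.Helper698.Dstab

universe u

namespace Pool.Agent.Y493.DS

variable {r : ℕ} {K : Type u} [Field K]

/-- The exponents of those minimal monomial generators of `I` which have the least weight
`∑ w i * α i`: the generators on the face of the Newton polyhedron of `I` which is cut out by the
weight vector `w`. This face is compact if all `w i` are positive, and all compact faces arise in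
this way. -/
def leastGens (I : Ideal (MvPolynomial (Fin r) K)) (w : Fin r → ℚ) : Set (Fin r →₀ ℕ) :=
  {α | α ∈ genExp I ∧ ∀ β ∈ genExp I, ∑ i, w i * (α i : ℚ) ≤ ∑ i, w i * (β i : ℚ)}

/-- The analytic spread of a monomial ideal: the largest rank of the set of the exponents of least
weight, over all weight vectors with positive rational entries. Equivalently, one plus the largest
dimension of a compact face of the Newton polyhedron. -/
noncomputable def spread (I : Ideal (MvPolynomial (Fin r) K)) : ℕ :=
  sSup {k | ∃ w : Fin r → ℚ, (∀ i, 0 < w i) ∧
    k = Module.finrank ℚ (Submodule.span ℚ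
      ((fun (α : Fin r →₀ ℕ) (i : Fin r) => (α i : ℚ)) '' leastGens I w))}

end Pool.Agent.Y493.DS
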