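import Mathlib
import Pool.Agent.Helper698.DD2

/-!
A sharper form of the upper bound for the depth of `K[X] ⧸ closure (I ^ n)`: the dimension count
is made with the exact numbers of monomials.
-/

open MvPolynomial CategoryTheory Abelian
open Pool.Agent.Helper698.Dstab

universe u

namespace Pool.Agent.Y493.DS


lemma asc_le (n d : ℕ) (hd : 1 ≤ d) : ∀ k : ℕ,
    (n * d + 1).ascFactorial k ≤ d ^ k * (n + 1).ascFactorial k
  | 0 => by simp
  | k + 1 => by
      rw [Nat.ascFactorial_succ, Nat.ascFactorial_succ, pow_succ]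
      have ih := asc_le n d hd k
      have h1 : n * d + 1 + k ≤ d * (n + 1 + k) := by nlinarith
      calc (n * d + 1 + k) * (n * d + 1).ascFactorial k
          ≤ (d * (n + 1 + k)) * (d ^ k * (n + 1).ascFactorial k) := Nat.mul_le_mul h1 ih
        _ = d ^ k * d * ((n + 1 + k) * (n + 1).ascFactorial k) := by ring

/-- numerical estimate -/
lemma numeric2 (n m' d : ℕ) (hd : 1 ≤ d) (hbig : (m' + 1) * (d ^ (m' + 1 - 1) - 1) < n) :
    (n * d + m').choose m' < (n + (m' + 1)).choose (m' + 1) := by
  have hd1 : 1 ≤ d ^ m' := Nat.one_le_pow _ _ hd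
  have hb : (m' + 1) * d ^ m' < n + (m' + 1) := by
    simp only [Nat.add_sub_cancel] at hbig
    obtain ⟨e, he⟩ : ∃ e, d ^ m' = e + 1 := ⟨d ^ m' - 1, by omega⟩
    rw [he] at hbig ⊢
    simp only [Nat.add_sub_cancel] at hbig
    nlinarith
  have hA := Nat.ascFactorial_eq_factorial_mul_choose n (m' + 1)
  have hB := Nat.ascFactorial_eq_factorial_mul_choose (n * d) m'
  have hC := asc_le n d hd m'
  have hpos : 0 < (n + 1).ascFactorial m' := Nat.ascFactorial_pos _ _
  have h1 : (m' + 1).factorial * (n * d + m').choose m' <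
      (m' + 1).factorial * (n + (m' + 1)).choose (m' + 1) := by
    rw [← hA, Nat.factorial_succ, mul_assoc, ← hB, Nat.ascFactorial_succ]
    calc (m' + 1) * (n * d + 1).ascFactorial m'
        ≤ (m' + 1) * (d ^ m' * (n + 1).ascFactorial m') := Nat.mul_le_mul_left _ hC
      _ = (m' + 1) * d ^ m' * (n + 1).ascFactorial m' := by ring
      _ < (n + (m' + 1)) * (n + 1).ascFactorial m' := Nat.mul_lt_mul_of_pos_right hb hpos
      _ = (n + 1 + m') * (n + 1).ascFactorial m' := by ring
  exact Nat.lt_of_mul_lt_mul_left h1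

/-- linear relations among many homogeneous polynomials, exact count -/
lemma exists_relation2 {K : Type u} [Field K] {m' : ℕ} {ι : Type} [Fintype ι] (D : ℕ)
    (u : ι → MvPolynomial (Fin (m' + 1)) K) (hu : ∀ i, (u i).IsHomogeneous D)
    (hcard : (D + m').choose m' < Fintype.card ι) :
    ∃ g : ι → K, ∑ i, g i • u i = 0 ∧ ∃ i, g i ≠ 0 := by
  classical
  let ex : Sym (Fin (m' + 1)) D → (Fin (m' + 1) →₀ ℕ) := fun μ =>
    Multiset.toFinsupp (μ : Multiset (Fin (m' + 1)))
  let Ψ : MvPolynomial (Fin (m' + 1)) K →ₗ[K] (Sym (Fin (m' + 1)) D → K) :=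
    LinearMap.pi fun μ => lcoeff K (ex μ)
  have hΨ : ∀ φ μ, Ψ φ μ = coeff (ex μ) φ := fun φ μ => rfl
  have hcount : Fintype.card (Sym (Fin (m' + 1)) D) = (D + m').choose m' := by
    rw [Sym.card_sym_eq_choose, Fintype.card_fin]
    have e1 : m' + 1 + D - 1 = D + m' := by omega
    rw [e1, ← Nat.choose_symm_of_eq_add (show D + m' = m' + D by omega)]
  have hdep : ¬ LinearIndependent K (fun i => Ψ (u i)) := by
    intro hind
    have h1 := hind.fintype_card_le_finrank
    rw [Module.finrank_fintype_fun_eq_card, hcount] at h1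
    omega
  rw [Fintype.not_linearIndependent_iff] at hdep
  obtain ⟨g, hg, hne⟩ := hdep
  refine ⟨g, ?_, hne⟩
  have hhom : (∑ i, g i • u i).IsHomogeneous D := by
    apply IsHomogeneous.sum
    intro i _
    rw [smul_eq_C_mul]
    exact (hu i).C_mul _
  have hΨ0 : Ψ (∑ i, g i • u i) = 0 := by
    rw [map_sum, ← hg]
    apply Finset.sum_congr rfl
    intro i _
    rw [map_smul]
  ext β
  rw [coeff_zero]
  by_cases hβ : β.degree = D
  · have hcardβ : Multiset.card (Finsupp.toMultiset β) = D := by
      rw [Finsupp.card_toMultiset, ← hβ]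
      rfl
    have hex : ex ⟨Finsupp.toMultiset β, hcardβ⟩ = β := by
      show Multiset.toFinsupp (Finsupp.toMultiset β) = β
      exact Finsupp.toMultiset_toFinsupp β
    rw [← hex, ← hΨ, hΨ0]; rfl
  · exact hhom.coeff_eq_zero hβ

variable {r : ℕ} {K : Type u} [Field K]

/-- the upper bound for the depth over an infinite field, sharp count of monomials -/
theorem upper_inf2 [Infinite K] (S : Set (Fin r →₀ ℕ)) (c : Fin r → ℚ)
    (hc : ∀ i, 0 < c i) (n d m : ℕ) (hn : 1 ≤ n) (hd : 1 ≤ d)
    (f : Fin (m + 1) → (Fin r →₀ ℕ)) (hf1 : ∀ j, dotN c (f j) = 1)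
    (hfind : LinearIndependent ℚ (fun j => toQ (f j))) (hfdeg : ∀ j, (f j).degree ≤ d)
    (hSn : ∀ α ∈ S, (n : ℚ) ≤ dotN c α)
    (hSmem : ∀ lam : Fin (m + 1) → ℕ, ∑ j, lam j = n → ∑ j, lam j • f j ∈ S)
    (hmr : m + 1 ≤ r) (hbig : m = 0 ∨ (n * d + (m - 1)).choose (m - 1) < (n + m).choose m)
    (ys : List (MvPolynomial (Fin r) K)) (hys : RegChain (MI K S) ys) (hysm : ∀ y ∈ ys, y ∈ mm K r)
    (hlen : ys.length = r - m) : False := by
  classical
  have hEV : EV (kk K r) (MvPolynomial (Fin r) K ⧸ MI K S) (r - m) := by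
    rw [← hlen]
    exact EV_of_chain ys _ hys fun y hy => (mem_ann_kk y).2 (hysm y hy)
  obtain ⟨vs, hvs1, hvs2⟩ := exists_lin_chain (r - m) (MI K S) ⊥ (by simp) hEV
  rw [bot_sup_eq, finrank_bot, zero_add] at hvs2
  obtain ⟨q, hq, hθ⟩ := exists_theta vs m (by omega)
  set θ : MvPolynomial (Fin r) K →ₐ[K] MvPolynomial (Fin m) K :=
    aeval (fun i => lin K m (q (Pi.single i 1))) with hθdef
  -- the contradiction principle
  have contra : ∀ h : MvPolynomial (Fin r) K, h ∈ MI K S → θ h = 0 →
      ∀ β ∈ h.support, (n : ℚ) < dotN c β := by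
    intro h h1 h2
    have h3 := chain_inter _ _ hvs1 h h1 (hθ h h2)
    have h4 : Ideal.span {y | y ∈ vs.map (lin K r)} ≤ mm K r := by
      rw [Ideal.span_le]
      intro y hy
      obtain ⟨v, _, rfl⟩ := List.mem_map.1 hy
      exact lin_mem_mm v
    exact weight_of_mem_mul S c hc n hSn h (Ideal.mul_mono_left h4 h3)
  rcases Nat.eq_zero_or_pos m with hm0 | hmpos
  · -- `m = 0`
    subst hm0
    have hmem := hSmem (fun _ => n) (by simp)
    rw [Fin.sum_univ_one] at hmem
    have hdot : dotN c (n • f 0) = n := by rw [dotN_smul_right, hf1, mul_one]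
    have hne : ∃ i, (n • f 0) i ≠ 0 := by
      by_contra hcon
      push Not at hcon
      have : dotN c (n • f 0) = 0 := by
        unfold dotN
        apply Finset.sum_eq_zero
        intro i _
        rw [hcon i]; simp
      rw [hdot] at this
      have : n = 0 := by exact_mod_cast this
      omega
    have h1 : θ (monomial (n • f 0) 1) = 0 := by
      rw [hθdef, aeval_monomial]
      obtain ⟨i, hi⟩ := hne
      rw [Finsupp.prod, Finset.prod_eq_zero (Finsupp.mem_support_iff.2 hi)]
      · rw [mul_zero]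
      · have : lin K 0 (q (Pi.single i 1)) = 0 := by rw [lin_apply]; simp
        rw [this]
        exact zero_pow hi
    have h2 := contra _ (monomial_mem_MI hmem 1) h1 (n • f 0) (by
      rw [mem_support_iff, coeff_monomial, if_pos rfl]; exact one_ne_zero)
    rw [hdot] at h2
    exact lt_irrefl _ h2
  · obtain ⟨m', rfl⟩ : ∃ m', m = m' + 1 := ⟨m - 1, by omega⟩
    -- a variable with nonzero image
    obtain ⟨i0, hi0⟩ : ∃ i0, q (Pi.single i0 1) ≠ 0 := by
      by_contra hcon
      push Not at hcon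
      have hq0 : q = 0 := by
        apply LinearMap.pi_ext'
        intro i
        ext
        simp [hcon i]
      obtain ⟨v, hv⟩ := hq (Pi.single 0 1)
      rw [hq0] at hv
      have := congrFun hv 0
      simp at this
    have hz0 : θ (X i0) ≠ 0 := by
      rw [hθdef, aeval_X]
      exact fun h => hi0 (lin_injective _ h)
    have hzhom : (θ (X i0)).IsHomogeneous 1 := by
      rw [hθdef, aeval_X]; exact lin_homogeneous _
    have hθhom : ∀ β : Fin r →₀ ℕ, (θ (monomial β 1)).IsHomogeneous β.degree := by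
      intro β
      have := (isHomogeneous_monomial (σ := Fin r) (d := β) (1 : K) rfl).aeval
        (fun i => lin K (m' + 1) (q (Pi.single i 1))) (fun i => lin_homogeneous _)
      rwa [one_mul] at this
    -- the exponents
    let lam : Sym (Fin (m' + 1 + 1)) n → (Fin (m' + 1 + 1) → ℕ) := fun μ j =>
      Multiset.count j (μ : Multiset (Fin (m' + 1 + 1)))
    have hlam : ∀ μ, ∑ j, lam μ j = n := by
      intro μ
      have h1 := Multiset.sum_count_eq_card (s := Finset.univ)
        (m := (μ : Multiset (Fin (m' + 1 + 1)))) (fun a _ => Finset.mem_univ a)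
      exact h1.trans μ.2
    obtain ⟨β, hβdef⟩ : ∃ β : Sym (Fin (m' + 1 + 1)) n → (Fin r →₀ ℕ),
        ∀ μ, β μ = ∑ j, lam μ j • f j := ⟨_, fun _ => rfl⟩
    have hβS : ∀ μ, β μ ∈ S := fun μ => by rw [hβdef]; exact hSmem _ (hlam μ)
    have hβdot : ∀ μ, dotN c (β μ) = n := by
      intro μ
      rw [hβdef, dotN_sum_right]
      simp only [dotN_smul_right, hf1, mul_one]
      exact_mod_cast hlam μ
    have hβinj : Function.Injective β := by
      intro μ ν h
      have h1 : ∑ j, (lam μ j : ℚ) • toQ (f j) = ∑ j, (lam ν j : ℚ) • toQ (f j) := by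
        have h2 : ∀ μ, ∑ j, (lam μ j : ℚ) • toQ (f j) = toQ (β μ) := by
          intro μ
          ext i
          simp only [hβdef, toQ, Finset.sum_apply, Pi.smul_apply, smul_eq_mul,
            Finsupp.coe_finsetSum, Finsupp.coe_smul]
          push_cast
          rfl
        rw [h2, h2, h]
      have h3 : ∑ j, ((lam μ j : ℚ) - (lam ν j : ℚ)) • toQ (f j) = 0 := by
        simp only [sub_smul, Finset.sum_sub_distrib, h1, sub_self]
      have h4 := Fintype.linearIndependent_iff.1 hfind _ h3
      apply Sym.coe_injective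
      ext j
      have h5 := h4 j
      have h6 : (lam μ j : ℚ) = lam ν j := by linarith
      exact_mod_cast h6
    have hβdeg : ∀ μ, (β μ).degree ≤ n * d := by
      intro μ
      rw [hβdef, map_sum]
      calc ∑ j, (lam μ j • f j).degree = ∑ j, lam μ j * (f j).degree := by
            apply Finset.sum_congr rfl; intro j _; rw [map_nsmul, smul_eq_mul]
        _ ≤ ∑ j, lam μ j * d := Finset.sum_le_sum fun j _ => Nat.mul_le_mul_left _ (hfdeg j)
        _ = n * d := by rw [← Finset.sum_mul, hlam]
    obtain ⟨u, hudef⟩ : ∃ u : Sym (Fin (m' + 1 + 1)) n → MvPolynomial (Fin (m' + 1)) K,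
        ∀ μ, u μ = θ (X i0) ^ (n * d - (β μ).degree) * θ (monomial (β μ) 1) :=
      ⟨_, fun _ => rfl⟩
    have hu : ∀ μ, (u μ).IsHomogeneous (n * d) := by
      intro μ
      rw [hudef]
      have h1 := (hzhom.pow (n * d - (β μ).degree)).mul (hθhom (β μ))
      rw [one_mul, Nat.sub_add_cancel (hβdeg μ)] at h1
      exact h1
    have hcard : (n * d + m').choose m' < Fintype.card (Sym (Fin (m' + 1 + 1)) n) := by
      rw [Sym.card_sym_eq_choose, Fintype.card_fin]
      have e1 : m' + 1 + 1 + n - 1 = n + (m' + 1) := by omega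
      rw [e1, Nat.choose_symm_of_eq_add (show n + (m' + 1) = n + (m' + 1) from rfl)]
      rcases hbig with h | h
      · omega
      · simpa using h
    obtain ⟨g, hg, μ1, hμ1⟩ := exists_relation2 (n * d) u hu hcard
    -- choose the maximal degree in the support
    obtain ⟨μ0, hμ0, hmax⟩ := Finset.exists_max_image
      (Finset.univ.filter (fun μ => g μ ≠ 0)) (fun μ => (β μ).degree) ⟨μ1, by simp [hμ1]⟩
    have hgμ0 : g μ0 ≠ 0 := (Finset.mem_filter.1 hμ0).2
    have hmax' : ∀ μ, g μ ≠ 0 → (β μ).degree ≤ (β μ0).degree := fun μ hμ =>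
      hmax μ (Finset.mem_filter.2 ⟨Finset.mem_univ _, hμ⟩)
    obtain ⟨e, hedef⟩ : ∃ e : Sym (Fin (m' + 1 + 1)) n → ℕ,
        ∀ μ, e μ = (β μ0).degree - (β μ).degree := ⟨_, fun _ => rfl⟩
    obtain ⟨h, hhdef⟩ : ∃ h : MvPolynomial (Fin r) K,
        h = ∑ μ, g μ • (X i0 ^ e μ * monomial (β μ) 1) := ⟨_, rfl⟩
    have hθh : θ (X i0) ^ (n * d - (β μ0).degree) * θ h = 0 := by
      rw [← hg, hhdef, map_sum θ, Finset.mul_sum]
      apply Finset.sum_congr rfl
      intro μ _
      rw [map_smul, map_mul, map_pow, mul_smul_comm]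
      by_cases hgμ : g μ = 0
      · rw [hgμ, zero_smul, zero_smul]
      · rw [hudef, ← mul_assoc, ← pow_add]
        have h1 := hmax' μ hgμ
        have h2 := hβdeg μ0
        have h3 : n * d - (β μ0).degree + e μ = n * d - (β μ).degree := by
          rw [hedef]; omega
        rw [h3]
    have hθh0 : θ h = 0 := by
      rcases mul_eq_zero.1 hθh with h1 | h1
      · exact absurd h1 (pow_ne_zero _ hz0)
      · exact h1
    have hhJ : h ∈ MI K S := by
      rw [hhdef]
      apply Ideal.sum_mem
      intro μ _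
      rw [smul_eq_C_mul]
      exact Ideal.mul_mem_left _ _ (Ideal.mul_mem_left _ _ (monomial_mem_MI (hβS μ) 1))
    have hmono : ∀ μ, (X i0 ^ e μ * monomial (β μ) (1 : K) : MvPolynomial (Fin r) K) =
        monomial (e μ • Finsupp.single i0 1 + β μ) 1 := by
      intro μ
      rw [X_pow_eq_monomial, monomial_mul, one_mul]
      congr 2
      simp
    have hcoef : coeff (β μ0) h = g μ0 := by
      rw [hhdef, coeff_sum, Finset.sum_eq_single μ0]
      · rw [hmono, coeff_smul, coeff_monomial, if_pos, smul_eq_mul, mul_one]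
        simp [hedef]
      · intro μ _ hμ
        rw [hmono, coeff_smul, coeff_monomial, if_neg, smul_zero]
        intro heq
        have h1 := congrArg (dotN c) heq
        rw [dotN_add_right, dotN_smul_right, dotN_single, hβdot, hβdot] at h1
        have h2 : (e μ : ℚ) * c i0 = 0 := by linarith
        have h3 : e μ = 0 := by
          rcases mul_eq_zero.1 h2 with h3 | h3
          · exact_mod_cast h3
          · exact absurd h3 (hc i0).ne'
        rw [h3, zero_smul, zero_add] at heq
        exact hμ (hβinj heq)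
      · intro h1; exact absurd (Finset.mem_univ _) h1
    have h1 := contra h hhJ hθh0 (β μ0) (by rw [mem_support_iff, hcoef]; exact hgμ0)
    rw [hβdot] at h1
    exact lt_irrefl _ h1


end Pool.Agent.Y493.DS
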