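import Mathlib
import Pool.Agent.Helper698.DE
import Pool.Agent.Y493.DS.Def
import Pool.Agent.Y493.DS.Up

/-!
The depth of `K[X] ⧸ closure (I ^ n)` in terms of the analytic spread.
-/

open MvPolynomial RingTheory.Sequence CategoryTheory Abelian
open Pool.Agent.Helper698.Dstab
open scoped Pointwise

universe u

namespace Pool.Agent.Y493.DS

variable {r : ℕ} {K : Type u} [Field K]

/-- the upper bound over an arbitrary field -/
lemma upper_all2 (S : Set (Fin r →₀ ℕ)) (c : Fin r → ℚ)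
    (hc : ∀ i, 0 < c i) (n d m : ℕ) (hn : 1 ≤ n) (hd : 1 ≤ d)
    (f : Fin (m + 1) → (Fin r →₀ ℕ)) (hf1 : ∀ j, dotN c (f j) = 1)
    (hfind : LinearIndependent ℚ (fun j => toQ (f j))) (hfdeg : ∀ j, (f j).degree ≤ d)
    (hSn : ∀ α ∈ S, (n : ℚ) ≤ dotN c α)
    (hSmem : ∀ lam : Fin (m + 1) → ℕ, ∑ j, lam j = n → ∑ j, lam j • f j ∈ S)
    (hmr : m + 1 ≤ r)
    (hbig : m = 0 ∨ (n * d + (m - 1)).choose (m - 1) < (n + m).choose m)
    (rs : List (MvPolynomial (Fin r) K)) (hrs : IsRegular (MvPolynomial (Fin r) K ⧸ MI K S) rs)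
    (hmem : ∀ x ∈ rs, x ∈ mm K r) : rs.length ≤ r - (m + 1) := by
  by_contra hcon
  push Not at hcon
  have h1 := RegChain_take rs (MI K S) (r - m) (chain_of_isWeaklyRegular rs _ hrs.toIsWeaklyRegular)
  have h2 := chain_map (L := AlgebraicClosure K) _ _ h1
  rw [MI_map] at h2
  refine upper_inf2 (K := AlgebraicClosure K) S c hc n d m hn hd f hf1 hfind hfdeg hSn hSmem hmr
    hbig _ h2 ?_ ?_
  · intro y hy
    obtain ⟨x, hx, rfl⟩ := List.mem_map.1 hy
    exact mm_map (hmem x (List.mem_of_mem_take hx))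
  · rw [List.length_map, List.length_take]
    omega

lemma mem_toFin (I : Ideal (MvPolynomial (Fin r) K)) (g : Fin r →₀ ℕ) :
    g ∈ (genExp_finite I).toFinset ↔ g ∈ genExp I := (genExp_finite I).mem_toFinset

lemma gens_nonempty (I : Ideal (MvPolynomial (Fin r) K)) (hI : IsMonomialIdeal I) (hI0 : I ≠ ⊥) :
    (genExp_finite I).toFinset.Nonempty := by
  obtain ⟨S, hS⟩ := hI
  have hSne : S.Nonempty := by
    rw [Set.nonempty_iff_ne_empty]
    intro h
    rw [h, Set.image_empty, Ideal.span_empty] at hS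
    exact hI0 hS
  obtain ⟨α, hα⟩ := hSne
  have h1 : α ∈ expSet I := by
    show monomial α (1 : K) ∈ I
    rw [hS]
    exact Ideal.subset_span ⟨α, hα, rfl⟩
  obtain ⟨g, hg, _⟩ := (expSet_iff I α).1 h1
  exact ⟨g, hg⟩

lemma gens_ne_zero (I : Ideal (MvPolynomial (Fin r) K)) (hI1 : I ≠ ⊤) :
    ∀ g ∈ genExp I, g ≠ 0 := by
  rintro g hg rfl
  have h1 : (monomial (0 : Fin r →₀ ℕ) (1 : K)) ∈ I := hg.1
  apply hI1
  rw [Ideal.eq_top_iff_one]
  exact h1

lemma deg_le_max (I : Ideal (MvPolynomial (Fin r) K)) :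
    ∀ g ∈ genExp I, g.degree ≤ maxGenDegree I := by
  intro g hg
  unfold maxGenDegree
  apply le_csSup
  · have hfin : {k | ∃ α ∈ genExp I, k = ∑ i, α i}.Finite := by
      apply ((genExp_finite I).image (fun α : Fin r →₀ ℕ => ∑ i, α i)).subset
      rintro k ⟨α, hα, rfl⟩
      exact ⟨α, hα, rfl⟩
    exact hfin.bddAbove
  · exact ⟨g, hg, Finsupp.degree_eq_sum g⟩

/-- the set of the ranks -/
def ranks (I : Ideal (MvPolynomial (Fin r) K)) : Set ℕ :=
  {k | ∃ w : Fin r → ℚ, (∀ i, 0 < w i) ∧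
    k = Module.finrank ℚ (Submodule.span ℚ
      ((fun (α : Fin r →₀ ℕ) (i : Fin r) => (α i : ℚ)) '' leastGens I w))}

lemma spread_def (I : Ideal (MvPolynomial (Fin r) K)) : spread I = sSup (ranks I) := rfl

lemma ranks_le (I : Ideal (MvPolynomial (Fin r) K)) : ∀ k ∈ ranks I, k ≤ r := by
  rintro k ⟨w, _, rfl⟩
  refine (Submodule.finrank_le _).trans ?_
  rw [Module.finrank_fintype_fun_eq_card, Fintype.card_fin]

lemma ranks_bdd (I : Ideal (MvPolynomial (Fin r) K)) : BddAbove (ranks I) := ⟨r, ranks_le I⟩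

lemma ranks_nonempty (I : Ideal (MvPolynomial (Fin r) K)) : (ranks I).Nonempty :=
  ⟨_, fun _ => 1, fun _ => one_pos, rfl⟩

lemma spread_le (I : Ideal (MvPolynomial (Fin r) K)) : spread I ≤ r :=
  csSup_le (ranks_nonempty I) (ranks_le I)

lemma leastGens_nonempty (I : Ideal (MvPolynomial (Fin r) K)) (hI : IsMonomialIdeal I)
    (hI0 : I ≠ ⊥) (w : Fin r → ℚ) : (leastGens I w).Nonempty := by
  obtain ⟨g0, hg0, hmin⟩ := (genExp_finite I).toFinset.exists_min_image
    (fun g => ∑ i, w i * (g i : ℚ)) (gens_nonempty I hI hI0)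
  exact ⟨g0, (mem_toFin I _).1 hg0, fun β hβ => hmin β ((mem_toFin I _).2 hβ)⟩

lemma one_le_spread (I : Ideal (MvPolynomial (Fin r) K)) (hI : IsMonomialIdeal I)
    (hI0 : I ≠ ⊥) (hI1 : I ≠ ⊤) : 1 ≤ spread I := by
  have hmem : Module.finrank ℚ (Submodule.span ℚ
      ((fun (α : Fin r →₀ ℕ) (i : Fin r) => (α i : ℚ)) '' leastGens I (fun _ => 1))) ∈ ranks I :=
    ⟨fun _ => 1, fun _ => one_pos, rfl⟩
  refine le_trans ?_ (le_csSup (ranks_bdd I) hmem)
  rw [Submodule.one_le_finrank_iff]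
  intro hbot
  obtain ⟨g0, hg0⟩ := leastGens_nonempty I hI hI0 (fun _ => 1)
  have h1 : toQ g0 ∈ Submodule.span ℚ
      ((fun (α : Fin r →₀ ℕ) (i : Fin r) => (α i : ℚ)) '' leastGens I (fun _ => 1)) :=
    Submodule.subset_span ⟨g0, hg0, rfl⟩
  rw [hbot, Submodule.mem_bot] at h1
  exact toQ_ne_zero (gens_ne_zero I hI1 g0 hg0.1) h1

lemma weight_pos {w : Fin r → ℚ} (hw : ∀ i, 0 < w i) {g : Fin r →₀ ℕ} (hg : g ≠ 0) :
    0 < ∑ i, w i * (g i : ℚ) := by
  obtain ⟨i, hi⟩ : ∃ i, g i ≠ 0 := by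
    by_contra hcon
    push Not at hcon
    exact hg (Finsupp.ext hcon)
  apply Finset.sum_pos'
  · intro j _
    exact mul_nonneg (hw j).le (Nat.cast_nonneg _)
  · exact ⟨i, Finset.mem_univ _, mul_pos (hw i) (by exact_mod_cast Nat.pos_of_ne_zero hi)⟩

/-- normalization of a weight -/
lemma scale (I : Ideal (MvPolynomial (Fin r) K)) (hI : IsMonomialIdeal I)
    (hI0 : I ≠ ⊥) (hI1 : I ≠ ⊤) (w : Fin r → ℚ) (hw : ∀ i, 0 < w i) :
    ∃ c ∈ BB (genExp_finite I).toFinset, (∀ i, 0 < c i) ∧ ∀ g ∈ leastGens I w, dotN c g = 1 := by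
  obtain ⟨g0, hg0⟩ := leastGens_nonempty I hI hI0 w
  have hμ := weight_pos hw (gens_ne_zero I hI1 g0 hg0.1)
  set μ := ∑ i, w i * (g0 i : ℚ) with hμdef
  have hdot : ∀ g : Fin r →₀ ℕ, dotN (fun i => w i / μ) g = (∑ i, w i * (g i : ℚ)) / μ := by
    intro g
    unfold dotN
    rw [Finset.sum_div]
    exact Finset.sum_congr rfl fun i _ => by ring
  refine ⟨fun i => w i / μ, ⟨fun i => (div_pos (hw i) hμ).le, fun g hg => ?_⟩,
    fun i => div_pos (hw i) hμ, fun g hg => ?_⟩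
  · rw [hdot, le_div_iff₀ hμ, one_mul]
    exact hg0.2 g ((mem_toFin I g).1 hg)
  · rw [hdot, div_eq_one_iff_eq hμ.ne']
    exact le_antisymm (hg.2 g0 hg0.1) (hg0.2 g hg.1)

/-- The depth is at least `r - ℓ` for all `n ≥ 1`. -/
theorem depth_ge (I : Ideal (MvPolynomial (Fin r) K)) (hI : IsMonomialIdeal I)
    (hI0 : I ≠ ⊥) (hI1 : I ≠ ⊤) (n : ℕ) (hn : 1 ≤ n) :
    ((r - spread I : ℕ) : ℕ∞) ≤ depthQuot (intClosurePow I n) := by
  have hG := gens_nonempty I hI hI0
  have hmax : ∀ c' ∈ BB (genExp_finite I).toFinset, (∀ i, 0 < c' i) →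
      Module.finrank ℚ (Submodule.span ℚ
        (toQ '' {g | g ∈ (genExp_finite I).toFinset ∧ dotN c' g = 1})) ≤ spread I := by
    intro c' hc' hpos
    have hmem : Module.finrank ℚ (Submodule.span ℚ
        ((fun (α : Fin r →₀ ℕ) (i : Fin r) => (α i : ℚ)) '' leastGens I c')) ∈ ranks I :=
      ⟨c', hpos, rfl⟩
    refine le_trans (Submodule.finrank_mono (Submodule.span_mono (Set.image_mono ?_)))
      (le_csSup (ranks_bdd I) hmem)
    rintro g ⟨hg, hg1⟩
    refine ⟨(mem_toFin I g).1 hg, fun β hβ => ?_⟩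
    have h1 : ∑ i, c' i * (g i : ℚ) = 1 := hg1
    rw [h1]
    exact hc'.2 β ((mem_toFin I β).2 hβ)
  have hVne : (VV (genExp_finite I).toFinset).Nonempty := by
    obtain ⟨c, hcB, _⟩ := scale I hI hI0 hI1 (fun _ => 1) fun _ => one_pos
    obtain ⟨c', hc', _⟩ := exists_vertex_le (genExp_finite I).toFinset 0 (fun _ => le_rfl) _ c
      le_rfl hcB
    exact ⟨c', hc'⟩
  rw [intClosurePow_eq I hG n hn]
  have h1 := lower (K := K) _ hG n hn (spread I) hmax
  obtain ⟨rs, hlen, hmem, hreg⟩ := exists_regular_of_EV _ (NE_le_mm _ n hn hVne) _ h1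
  unfold depthQuot
  rw [← hlen]
  exact le_iSup₂ (f := fun (rs : List (MvPolynomial (Fin r) K))
    (_ : (∀ x ∈ rs, x ∈ Ideal.span (Set.range (X : Fin r → MvPolynomial (Fin r) K))) ∧
      IsRegular (MvPolynomial (Fin r) K ⧸ MI K (NE (genExp_finite I).toFinset n)) rs) =>
      (rs.length : ℕ∞))
    rs ⟨hmem, hreg⟩

/-- The depth is at most `r - ℓ` if there are sufficiently many products of generators. -/
theorem depth_least (I : Ideal (MvPolynomial (Fin r) K)) (hI : IsMonomialIdeal I)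
    (hI0 : I ≠ ⊥) (hI1 : I ≠ ⊤) (l : ℕ) (hl : l = spread I) (w : Fin r → ℚ) (hw : ∀ i, 0 < w i)
    (f : Fin l → (Fin r →₀ ℕ)) (hf : ∀ j, f j ∈ leastGens I w)
    (hind : LinearIndependent ℚ (fun (j : Fin l) (i : Fin r) => (f j i : ℚ)))
    (D : ℕ) (hD : ∀ j, (f j).degree ≤ D) (n : ℕ) (hn : 1 ≤ n)
    (hnum : l = 1 ∨ (n * D + (l - 2)).choose (l - 2) < (n + (l - 1)).choose (l - 1)) :
    depthQuot (intClosurePow I n) = ((r - l : ℕ) : ℕ∞) := by
  have hl1 := one_le_spread I hI hI0 hI1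
  have hlr := spread_le I
  apply le_antisymm
  · obtain ⟨m, rfl⟩ : ∃ m, l = m + 1 := ⟨l - 1, by omega⟩
    obtain ⟨c, hcB, hcpos, hc1⟩ := scale I hI hI0 hI1 w hw
    have hG := gens_nonempty I hI hI0
    have hD1 : 1 ≤ D := by
      refine le_trans ?_ (hD 0)
      rw [Nat.one_le_iff_ne_zero]
      intro h
      exact gens_ne_zero I hI1 _ (hf 0).1 ((Finsupp.degree_eq_zero_iff _).1 h)
    rw [intClosurePow_eq I hG n hn]
    unfold depthQuot
    apply iSup₂_le
    rintro rs ⟨hmem, hreg⟩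
    have hlen := upper_all2 (NE (genExp_finite I).toFinset n) c hcpos n D m hn hD1 f
      (fun j => hc1 _ (hf j)) hind hD ?_ ?_ (by omega) ?_ rs hreg hmem
    · exact_mod_cast hlen
    · intro α hα
      have h1 := le_dotR_of_VV _ (toR α) (fun i => toR_nonneg α i) n hα c hcB
      rw [dotR_toR] at h1
      exact_mod_cast h1
    · intro lam hlam c' hc'
      rw [dotR_toR]
      have h1 : (n : ℚ) ≤ dotN c' (∑ j, lam j • f j) := by
        rw [dotN_sum_right]
        calc (n : ℚ) = ∑ j, (lam j : ℚ) := by rw [← hlam]; push_cast; rfl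
          _ ≤ ∑ j, dotN c' (lam j • f j) := by
              apply Finset.sum_le_sum
              intro j _
              rw [dotN_smul_right]
              have := hc'.1.2 (f j) ((mem_toFin I _).2 (hf j).1)
              have h2 : (0 : ℚ) ≤ lam j := by positivity
              nlinarith
      exact_mod_cast h1
    · rcases hnum with h | h
      · left; omega
      · right
        have e1 : m + 1 - 2 = m - 1 := by omega
        rw [e1] at h
        simpa using h
  · rw [hl]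
    exact depth_ge I hI hI0 hI1 n hn

/-- There are `ℓ` linearly independent generators on a compact face. -/
theorem exists_tuple (I : Ideal (MvPolynomial (Fin r) K)) :
    ∃ (w : Fin r → ℚ) (f : Fin (spread I) → (Fin r →₀ ℕ)), (∀ i, 0 < w i) ∧
      (∀ j, f j ∈ leastGens I w) ∧
      LinearIndependent ℚ (fun (j : Fin (spread I)) (i : Fin r) => (f j i : ℚ)) := by
  classical
  obtain ⟨w, hw, hrk⟩ : spread I ∈ ranks I := Nat.sSup_mem (ranks_nonempty I) (ranks_bdd I)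
  obtain ⟨b, hb, hspan, hind⟩ := exists_linearIndependent ℚ
    ((fun (α : Fin r →₀ ℕ) (i : Fin r) => (α i : ℚ)) '' leastGens I w)
  have hfin : b.Finite := by
    apply Set.Finite.subset _ hb
    exact ((genExp_finite I).subset (fun g hg => hg.1)).image _
  have := hfin.fintype
  have hcard : Fintype.card b = spread I := by
    have h1 := finrank_span_set_eq_card hind
    rw [hspan, ← hrk] at h1
    rw [h1, Set.toFinset_card]
  let e : Fin (spread I) ≃ b := (Fintype.equivFinOfCardEq hcard).symm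
  have hex : ∀ j, ∃ g, g ∈ leastGens I w ∧ (fun i : Fin r => (g i : ℚ)) = (e j : Fin r → ℚ) :=
    fun j => hb (e j).2
  choose f hf1 hf2 using hex
  refine ⟨w, f, hw, hf1, ?_⟩
  have h2 : (fun (j : Fin (spread I)) (i : Fin r) => (f j i : ℚ)) =
      (fun x : b => (x : Fin r → ℚ)) ∘ e := by
    ext1 j; exact hf2 j
  rw [h2]
  exact hind.comp e e.injective

/-- The explicit condition implies the count. -/
lemma count_of_lt (l n D : ℕ) (hl : 1 ≤ l) (hD : 1 ≤ D) (h : (l - 1) * (D ^ (l - 2) - 1) < n) :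
    l = 1 ∨ (n * D + (l - 2)).choose (l - 2) < (n + (l - 1)).choose (l - 1) := by
  rcases Nat.eq_or_lt_of_le hl with h1 | h1
  · exact Or.inl h1.symm
  · right
    obtain ⟨m', rfl⟩ : ∃ m', l = m' + 2 := ⟨l - 2, by omega⟩
    have := numeric2 n m' D hD (by simpa using h)
    simpa using this

lemma max_pos (I : Ideal (MvPolynomial (Fin r) K)) (hI : IsMonomialIdeal I)
    (hI0 : I ≠ ⊥) (hI1 : I ≠ ⊤) : 1 ≤ maxGenDegree I := by
  obtain ⟨g, hg⟩ := gens_nonempty I hI hI0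
  have hg' := (mem_toFin I g).1 hg
  refine le_trans ?_ (deg_le_max I g hg')
  rw [Nat.one_le_iff_ne_zero]
  intro h
  exact gens_ne_zero I hI1 g hg' ((Finsupp.degree_eq_zero_iff g).1 h)

/-- The bound in terms of `d(I)` and `ℓ(I)`. -/
theorem depth_eq2 (I : Ideal (MvPolynomial (Fin r) K)) (hI : IsMonomialIdeal I)
    (hI0 : I ≠ ⊥) (hI1 : I ≠ ⊤) (n : ℕ)
    (h : (spread I - 1) * (maxGenDegree I ^ (spread I - 2) - 1) < n) :
    depthQuot (intClosurePow I n) = ((r - spread I : ℕ) : ℕ∞) := by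
  obtain ⟨w, f, hw, hf, hind⟩ := exists_tuple I
  exact depth_least I hI hI0 hI1 _ rfl w hw f hf hind (maxGenDegree I)
    (fun j => deg_le_max I _ (hf j).1) n (by omega)
    (count_of_lt _ _ _ (one_le_spread I hI hI0 hI1) (max_pos I hI hI0 hI1) h)

theorem dstab_le (I : Ideal (MvPolynomial (Fin r) K)) (hI : IsMonomialIdeal I)
    (hI0 : I ≠ ⊥) (hI1 : I ≠ ⊤) :
    dstabBar I ≤ (spread I - 1) * (maxGenDegree I ^ (spread I - 2) - 1) + 1 := by
  apply Nat.sInf_le
  refine ⟨by omega, fun n hn => ?_⟩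
  rw [depth_eq2 I hI hI0 hI1 n (by omega), depth_eq2 I hI hI0 hI1 _ (Nat.lt_succ_self _)]

end Pool.Agent.Y493.DS
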